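import Pool.Agent.H329N.Final
import Pool.Agent.H329N.PSwap
import Pool.Agent.H329N.PMuProd
import Pool.Agent.H329N.PLLL
import Pool.Agent.H329N.PGreedy
import Pool.Agent.H329N.PColor
import Pool.Agent.H329N.PFindSound
import Pool.Agent.H329N.PFindComplete
import Pool.Agent.H329N.PLaySize
import Pool.Agent.H329N.PMu
import Pool.Agent.H329N.PCount
import Pool.Agent.H329N.PSum
import Pool.Agent.H329N.PCond
import Pool.Agent.H329N.PMaxDeg
import Pool.Agent.H329N.PNonrep
import Pool.Agent.H329N.PSel
import Pool.Agent.H329N.PUnif
import Pool.Agent.H329N.PBridge
import Pool.Agent.H329N.PNum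
import Pool.Agent.H329N.PWid
import Pool.Agent.H329N.PPolyFind
import Pool.Agent.H329N.PPolyGreedy
import Pool.Agent.H329N.PPolyAlg

/-!
# Nonrepetitive colourings with `O(Δ²)` colours by a polynomial-time Monte Carlo algorithm

There is a polynomial-time algorithm which, given (the adjacency matrix of) a graph `G` on `n ≥ 1`
vertices and polynomially many uniformly random bits, outputs with probability at least `1 - 1/n` a
nonrepetitive colouring of `G` with at most `C Δ²` colours (`C = 256`; with one colour if `G` has no
edges), where `Δ` is the maximum degree.

The algorithm resamples colours in rounds, in the manner of Moser and Tardos.  Two ideas make it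
polynomial.  A repetitively coloured path with more than `2 L` vertices, `L = ⌈log₂ (n + 1)⌉`,
contains two disjoint paths with `L` vertices and the same colours; such pairs are so unlikely that
they may be treated as bad events, too.  So all bad events have at most `2 L` vertices, and they can
be found by colour coding.

Definitions: `Nonrepetitive`, `mat` (adjacency matrix) in `Pool.Agent.H329N.Base`, `GoodOutput` in
`Pool.Agent.H329N.Final`, `PolyTime`, `bits` (standard encoding) in `Pool.Agent.NPC.Defs`.
-/

namespace Pool.Agent.Results.MP_0272f9_lc.NonrepetitiveMonteCarlo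

open Pool.Agent.H329N Pool.Agent.NPC

theorem lll_holds : S_LLL := LLL_proof Swap_proof (MuProd_proof Swap_proof)

theorem cond_holds : S_Cond := Cond_proof Mu_proof (Sum_proof Count_proof)

theorem sel_holds : S_Sel := Sel_proof Greedy_proof Color_proof FindSound_proof FindComplete_proof

theorem poly_holds : S_PolyAlg :=
  PolyAlg_proof (PolyGreedy_proof (PolyFind_proof LaySize_proof) FindSound_proof)

/-- There are a constant `C`, a polynomial `p` and a polynomial-time computable function `A` such
that, for every graph `G` with vertex set `{0, ..., n - 1}`, `n ≥ 1`, if `r` is a uniformly random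
string of `p(n)` bits, then with probability at least `1 - 1/n` the output `A (G, r)` is a
nonrepetitive colouring of `G` with colours smaller than `C Δ²` (smaller than `1` if `Δ = 0`). -/
theorem result :
    ∃ (C : ℕ) (p : Polynomial ℕ) (A : List Bool → List Bool), PolyTime A ∧
      ∀ (n : ℕ) (G : SimpleGraph (Fin n)) [DecidableRel G.Adj], 0 < n →
        1 - 1 / (n : ℝ) ≤
          ({r : Fin (p.eval n) → Bool | GoodOutput C G (A (bits (mat G, List.ofFn r)))}.ncard : ℝ) /
            2 ^ (p.eval n) :=
  final lll_holds cond_holds MaxDeg_proof sel_holds Unif_proof Num_proof Wid_proof Bridge_proof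
    Nonrep_proof poly_holds

end Pool.Agent.Results.MP_0272f9_lc.NonrepetitiveMonteCarlo
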